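import Pool.Agent.Run7.h102.LS.Stm

/-! # Project LS (helper102), piece GEN (helper819): shuffles of the generating functions `Wt` -/

set_option autoImplicit false

namespace Run7.h819.LS

open Finset Run7.h102.LS

variable {A : Type} [CommRing A]

lemma Wt_add (N : ℕ) : ∀ (l : List A) (β γ : List (Fin 2) → A),
    Wt N l (fun w => β w + γ w) = Wt N l β + Wt N l γ := by
  induction N with
  | zero => intro l β γ; cases l <;> simp [Wt]
  | succ N ih =>
    intro l β γ
    cases l with
    | nil => simp [Wt]
    | cons a l =>
      simp only [Wt]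
      rw [ih l (fun w => β (1 :: w)) (fun w => γ (1 :: w)),
        ih (a :: l) (fun w => β (0 :: w)) (fun w => γ (0 :: w))]
      ring

lemma Wt_mul (N : ℕ) : ∀ (l : List A) (c : A) (β : List (Fin 2) → A),
    Wt N l (fun w => c * β w) = c * Wt N l β := by
  induction N with
  | zero => intro l c β; cases l <;> simp [Wt]
  | succ N ih =>
    intro l c β
    cases l with
    | nil => simp [Wt]
    | cons a l =>
      simp only [Wt]
      rw [ih l c (fun w => β (1 :: w)), ih (a :: l) c (fun w => β (0 :: w))]
      ring

lemma Wt_congr (N : ℕ) : ∀ (l : List A) (β γ : List (Fin 2) → A), (∀ w, w.length = N → β w = γ w) →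
    Wt N l β = Wt N l γ := by
  induction N with
  | zero =>
    intro l β γ h
    cases l with
    | nil => simp only [Wt]; exact h [] rfl
    | cons a l => simp [Wt]
  | succ N ih =>
    intro l β γ h
    cases l with
    | nil => simp [Wt]
    | cons a l =>
      simp only [Wt]
      rw [ih l (fun w => β (1 :: w)) (fun w => γ (1 :: w)) fun w hw => h _ (by simp [hw]),
        ih (a :: l) (fun w => β (0 :: w)) (fun w => γ (0 :: w)) fun w hw => h _ (by simp [hw])]

lemma Wt_zero (N : ℕ) (l : List A) : Wt N l (fun _ => (0 : A)) = 0 := by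
  have h := Wt_mul N l 0 (fun _ => 0)
  simpa using h

/-- the convolution -/
def C (N : ℕ) (l l' : List A) (Φ : List (Fin 2) → List (Fin 2) → A) : A :=
  ∑ i ∈ range (N + 1), Wt i l (fun p => Wt (N - i) l' (fun q => Φ p q))

lemma C_add (N : ℕ) (l l' : List A) (Φ Ψ : List (Fin 2) → List (Fin 2) → A) :
    C N l l' (fun p q => Φ p q + Ψ p q) = C N l l' Φ + C N l l' Ψ := by
  unfold C
  rw [← Finset.sum_add_distrib]
  refine Finset.sum_congr rfl fun i _ => ?_
  rw [← Wt_add]
  congr 1
  funext p
  exact Wt_add _ _ _ _

lemma C_left (N : ℕ) (a : A) (l l' : List A) (Φ : List (Fin 2) → List (Fin 2) → A) :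
    C (N + 1) (a :: l) l' Φ = C N l l' (fun p q => Φ (1 :: p) q) + a * C N (a :: l) l' (fun p q => Φ (0 :: p) q) := by
  unfold C
  rw [Finset.sum_range_succ', Finset.mul_sum, ← Finset.sum_add_distrib]
  have h0 : Wt 0 (a :: l) (fun p => Wt (N + 1 - 0) l' (fun q => Φ p q)) = 0 := by simp [Wt]
  rw [h0, add_zero]
  refine Finset.sum_congr rfl fun i _ => ?_
  rw [Nat.add_sub_add_right]
  simp only [Wt]

lemma C_right (N : ℕ) (b : A) (l l' : List A) (Φ : List (Fin 2) → List (Fin 2) → A) :
    C (N + 1) l (b :: l') Φ = C N l l' (fun p q => Φ p (1 :: q)) + b * C N l (b :: l') (fun p q => Φ p (0 :: q)) := by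
  unfold C
  rw [Finset.sum_range_succ, Finset.mul_sum, ← Finset.sum_add_distrib]
  have h0 : Wt (N + 1) l (fun p => Wt (N + 1 - (N + 1)) (b :: l') (fun q => Φ p q)) = 0 := by
    rw [Nat.sub_self]
    simp only [Wt]
    exact Wt_zero _ _
  rw [h0, add_zero]
  refine Finset.sum_congr rfl fun i hi => ?_
  rw [Finset.mem_range] at hi
  have e : N + 1 - i = (N - i) + 1 := by omega
  rw [e]
  simp only [Wt]
  rw [Wt_add, Wt_mul]

lemma C_zero_right (b : A) (l l' : List A) (Φ : List (Fin 2) → List (Fin 2) → A) : C 0 l (b :: l') Φ = 0 := by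
  unfold C
  simp only [zero_add, Finset.sum_range_one, Nat.sub_self, Wt]
  exact Wt_zero _ _

lemma C_zero_left (a : A) (l l' : List A) (Φ : List (Fin 2) → List (Fin 2) → A) : C 0 (a :: l) l' Φ = 0 := by
  unfold C
  simp [Wt]

lemma C_sh (N : ℕ) (a b : A) (l l' : List A) (β : List (Fin 2) → A) :
    C (N + 1) (a :: l) (b :: l') (fun p q => sh p q β) =
      C N l (b :: l') (fun p q => sh p q (fun w => β (1 :: w))) +
      C N (a :: l) l' (fun p q => sh p q (fun w => β (1 :: w))) +
      (a + b) * C N (a :: l) (b :: l') (fun p q => sh p q (fun w => β (0 :: w))) := by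
  cases N with
  | zero =>
    rw [C_left]
    simp only [C_zero_right, C_zero_left]
    ring
  | succ N =>
    rw [C_left, C_right, C_right]
    simp only [sh_cons]
    rw [C_add, C_add, C_add, C_add]
    have e1 := C_right N b l l' (fun p q => sh p q (fun w => β (1 :: w)))
    have e2 := C_right N b (a :: l) l' (fun p q => sh p q (fun w => β (0 :: w)))
    have e3 := C_left N a l l' (fun p q => sh p q (fun w => β (1 :: w)))
    have e4 := C_left N a l (b :: l') (fun p q => sh p q (fun w => β (0 :: w)))
    rw [e1, e3, add_mul, e2]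
    nth_rewrite 2 [← e2]
    rw [e4]
    ring

/-- the identity -/
theorem conv (N : ℕ) : ∀ (u v : List A) (β : List (Fin 2) → A),
    sh u v (fun w => Wt N (ss w) β) = C N (ss u) (ss v) (fun p q => sh p q β) := by
  induction N with
  | zero =>
    intro u v β
    cases u with
    | nil =>
      rw [sh_nil_left]
      simp only [C, ss, zero_add, Finset.sum_range_one, Nat.sub_self, Wt, sh_nil_left]
    | cons a u =>
      cases v with
      | nil =>
        rw [sh_nil_right]
        simp [C, ss, Wt]
      | cons b v =>
        rw [sh_cons]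
        simp only [ss, Wt]
        rw [sh_zero, sh_zero, C_zero_left, add_zero]
  | succ N ih =>
    intro u v β
    cases u with
    | nil =>
      rw [sh_nil_left]
      unfold C
      rw [Finset.sum_range_succ']
      have h : ∀ i ∈ range (N + 1), Wt (i + 1) (ss ([] : List A))
          (fun p => Wt (N + 1 - (i + 1)) (ss v) (fun q => sh p q β)) = 0 := by
        intro i _
        simp [ss, Wt]
      rw [Finset.sum_eq_zero h]
      simp only [ss, Wt, zero_add, Nat.sub_zero, sh_nil_left]
    | cons a u =>
      cases v with
      | nil =>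
        rw [sh_nil_right]
        unfold C
        rw [Finset.sum_range_succ]
        have h : ∀ i ∈ range (N + 1), Wt i (ss (a :: u))
            (fun p => Wt (N + 1 - i) (ss ([] : List A)) (fun q => sh p q β)) = 0 := by
          intro i hi
          rw [Finset.mem_range] at hi
          have e : N + 1 - i = (N - i) + 1 := by omega
          rw [e]
          simp only [ss, Wt]
          exact Wt_zero i _
        rw [Finset.sum_eq_zero h, Nat.sub_self]
        simp only [ss, Wt, zero_add, sh_nil_right]
      | cons b v =>
        have hL : sh (a :: u) (b :: v) (fun w => Wt (N + 1) (ss w) β) =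
            sh u (b :: v) (fun w => Wt N (ss w) (fun w => β (1 :: w))) +
            sh (a :: u) v (fun w => Wt N (ss w) (fun w => β (1 :: w))) +
            ((a + u.sum) + (b + v.sum)) * sh (a :: u) (b :: v) (fun w => Wt N (ss w) (fun w => β (0 :: w))) := by
          rw [sh_cons, sh_cons]
          have e1 : sh u (b :: v) (fun w => Wt (N + 1) (ss (a :: w)) β) =
              sh u (b :: v) (fun w => Wt N (ss w) (fun w => β (1 :: w)) +
                ((a + u.sum) + (b + v.sum)) * Wt N (ss (a :: w)) (fun w => β (0 :: w))) := by
            refine sh_congr _ u (b :: v) rfl _ _ fun w hw => ?_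
            have hs : w.sum = u.sum + (b + v.sum) := by
              rw [hw.sum_eq, List.sum_append, List.sum_cons]
            simp only [ss, Wt]
            rw [hs]
            ring
          have e2 : sh (a :: u) v (fun w => Wt (N + 1) (ss (b :: w)) β) =
              sh (a :: u) v (fun w => Wt N (ss w) (fun w => β (1 :: w)) +
                ((a + u.sum) + (b + v.sum)) * Wt N (ss (b :: w)) (fun w => β (0 :: w))) := by
            refine sh_congr _ (a :: u) v rfl _ _ fun w hw => ?_
            have hs : w.sum = a + u.sum + v.sum := by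
              rw [hw.sum_eq, List.sum_append, List.sum_cons]
            simp only [ss, Wt]
            rw [hs]
            ring
          have e3 : ∀ (u v : List A) (G : List A → A) (c : A),
              sh u v (fun w => c * G w) = c * sh u v G := fun u v G c =>
            (sh_hom (AddMonoidHom.mulLeft c) u v G).symm
          rw [e1, e2, sh_add, sh_add, e3, e3]
          ring
        rw [hL, ih, ih, ih]
        exact (C_sh N (a + u.sum) (b + v.sum) (ss u) (ss v) β).symm

theorem t_GEN : S_GEN := by
  intro A _ N r β hβ u v hu hv _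
  rw [conv]
  unfold C
  refine Finset.sum_eq_zero fun i hi => ?_
  rw [Finset.mem_range] at hi
  obtain ⟨a, u, rfl⟩ := List.exists_cons_of_ne_nil hu
  obtain ⟨b, v, rfl⟩ := List.exists_cons_of_ne_nil hv
  rcases Nat.eq_zero_or_pos i with rfl | hi0
  · simp [ss, Wt]
  rcases Nat.eq_zero_or_pos (N - i) with h0 | h0
  · rw [h0]
    simp only [ss, Wt]
    exact Wt_zero _ _
  · rw [← Wt_zero i (ss (a :: u))]
    refine Wt_congr i _ _ _ fun p hp => ?_
    rw [← Wt_zero (N - i) (ss (b :: v))]
    refine Wt_congr (N - i) _ _ _ fun q hq => ?_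
    refine hβ p q ?_ ?_ (by omega)
    · intro h
      rw [h, List.length_nil] at hp
      omega
    · intro h
      rw [h, List.length_nil] at hq
      omega

end Run7.h819.LS
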